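import Pool.Agent.Lib.MP_67dc8a_an.RMain


open Pool.Agent.Lib.MP_67dc8a_an

namespace Pool.Agent.Results.MP_67dc8a_an.RealAndComplex

/-- Change of the scalar field along an isometric isomorphism that keeps real parts. -/
theorem transfer {K L X : Type} [RCLike K] [RCLike L] [NormedAddCommGroup X] [NormedSpace K X]
    [NormedSpace L X] (e : K ≃+* L) (hn : ∀ a, ‖e a‖ = ‖a‖)
    (hr : ∀ a, RCLike.re (e a) = RCLike.re a) (hs : ∀ (a : K) (x : X), a • x = e a • x)
    (h : ¬ FiniteDimensional L X ∧ SuperADP L X ∧ ∀ x : X, ¬ IsDaugavetPoint L x) :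
    ¬ FiniteDimensional K X ∧ SuperADP K X ∧ ∀ x : X, ¬ IsDaugavetPoint K x := by
  have hn' : ∀ b, ‖e.symm b‖ = ‖b‖ := fun b => by rw [← hn, e.apply_symm_apply]
  have c1 : Continuous e := (AddMonoidHomClass.isometry_of_norm e hn).continuous
  have c2 : Continuous e.symm := (AddMonoidHomClass.isometry_of_norm e.symm hn').continuous
  have up : ∀ f : StrongDual K X, ∃ g : StrongDual L X, ∀ x, g x = e (f x) := fun f =>
    ⟨⟨⟨⟨fun x => e (f x), by simp⟩, fun b x => by
      obtain ⟨a, rfl⟩ := e.surjective b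
      simp [← hs]⟩, c1.comp f.continuous⟩, fun _ => rfl⟩
  have down : ∀ g : StrongDual L X, ∃ f : StrongDual K X, ∀ x, g x = e (f x) := fun g =>
    ⟨⟨⟨⟨fun x => e.symm (g x), by simp⟩, fun a x => by simp [hs]⟩, c2.comp g.continuous⟩,
      fun _ => (e.apply_symm_apply _).symm⟩
  refine ⟨fun h1 => h.1 (Module.Finite.of_surjective (R := K) (M := X) (σ := (e : K →+* L))
    ⟨⟨id, fun _ _ => rfl⟩, hs⟩ Function.surjective_id), ?_, fun x hx => h.2.2 x ⟨hx.1, ?_⟩⟩
  · rintro x hx W ⟨U, hU, rfl⟩ hy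
    have c3 : Continuous fun z : WeakSpace L X => toWeakSpace K X ((toWeakSpace L X).symm z) := by
      refine WeakBilin.continuous_of_continuous_eval _ fun f => ?_
      obtain ⟨g, hg⟩ := up f
      refine (c2.comp (WeakBilin.eval_continuous (topDualPairing L X).flip g)).congr fun z => ?_
      exact (congrArg e.symm (hg _)).trans (e.symm_apply_apply _)
    convert h.2.1 x hx _ ⟨_, hU.preimage c3, rfl⟩ hy using 1
    ext r
    exact ⟨fun ⟨y, h1, θ, h2, h3⟩ => ⟨y, h1, e θ, (hn θ).trans h2, hs θ y ▸ h3⟩,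
      fun ⟨y, h1, θ, h2, h3⟩ => ⟨y, h1, e.symm θ, (hn' θ).trans h2, by
        rw [hs, e.apply_symm_apply]; exact h3⟩⟩
  · intro g hg α hα
    obtain ⟨f, hf⟩ := down g
    have e1 : slice L g α = slice K f α := by simp only [slice, hf, hr]
    rw [e1]
    exact hx.2 f (fun h0 => hg (ContinuousLinearMap.ext fun z => by simp [hf, h0])) α hα

theorem exists_space {K L : Type} [RCLike K] [RCLike L] (X : Type) [NormedAddCommGroup X]
    [NormedSpace L X] [CompleteSpace X] (e : K ≃+* L) (hn : ∀ a, ‖e a‖ = ‖a‖)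
    (hr : ∀ a, RCLike.re (e a) = RCLike.re a)
    (h : ¬ FiniteDimensional L X ∧ SuperADP L X ∧ ∀ x : X, ¬ IsDaugavetPoint L x) :
    ∃ (X : Type) (_ : NormedAddCommGroup X) (_ : NormedSpace K X) (_ : CompleteSpace X),
      ¬ FiniteDimensional K X ∧ SuperADP K X ∧ ∀ x : X, ¬ IsDaugavetPoint K x := by
  let _ : NormedSpace K X :=
    { Module.compHom X (e : K →+* L) with
      norm_smul_le := fun a x => (norm_smul_le (e a) x).trans_eq (by rw [hn]) }
  exact ⟨X, inferInstance, inferInstance, inferInstance, transfer e hn hr (fun _ _ => rfl) h⟩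

/-- Over the reals and over the complex numbers there is an infinite-dimensional Banach space
with the super alternative Daugavet property and without any Daugavet point. -/
theorem result (𝕜 : Type) [RCLike 𝕜] :
    ∃ (X : Type) (_ : NormedAddCommGroup X) (_ : NormedSpace 𝕜 X) (_ : CompleteSpace X),
      ¬ FiniteDimensional 𝕜 X ∧ SuperADP 𝕜 X ∧ ∀ x : X, ¬ IsDaugavetPoint 𝕜 x := by
  rcases RCLike.I_eq_zero_or_im_I_eq_one (K := 𝕜) with h | h
  · exact exists_space R.XR (RCLike.realRingEquiv h) (RCLike.realLinearIsometryEquiv h).norm_map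
      (fun _ => rfl) ⟨R.not_finiteDimensional, R.superADP, R.not_daugavet⟩
  · exact exists_space XC (RCLike.complexRingEquiv h)
      (RCLike.complexLinearIsometryEquiv h).norm_map (fun _ => by simp)
      ⟨not_finiteDimensional, superADP, not_daugavet⟩

end Pool.Agent.Results.MP_67dc8a_an.RealAndComplex
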